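import Pool.Agent.H6.FN.TargetsG

/-!
# MP_7500ea_al, board fcn_modules: the orbital graph (for the rows UD3, UD4)
-/

namespace Pool.Agent.H56.FN

open FI MulAction

/-- the orbital relation of the pair `(x, y)` -/
def ORel (G : Type) {α : Type} [Group G] [MulAction G α] (x y : α) (u v : α) : Prop :=
  ∃ g : G, g • x = u ∧ g • y = v

/-- the orbital graph of the pair `(x, y)` -/
def OGr (G : Type) {α : Type} [Group G] [MulAction G α] (x y : α) : SimpleGraph α where
  Adj u v := u ≠ v ∧ (ORel G x y u v ∨ ORel G x y v u)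
  symm := ⟨fun _ _ h => ⟨h.1.symm, h.2.symm⟩⟩
  loopless := ⟨fun _ h => h.1 rfl⟩

theorem ORel.smul {G α : Type} [Group G] [MulAction G α] {x y u v : α} (g : G)
    (h : ORel G x y u v) : ORel G x y (g • u) (g • v) := by
  obtain ⟨k, hk1, hk2⟩ := h
  exact ⟨g * k, by rw [mul_smul, hk1], by rw [mul_smul, hk2]⟩

theorem OGr_inv {G α : Type} [Group G] [MulAction G α] (x y : α) (g : G) (u v : α)
    (h : (OGr G x y).Adj u v) : (OGr G x y).Adj (g • u) (g • v) := by
  refine ⟨fun h' => h.1 (MulAction.injective g h'), ?_⟩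
  rcases h.2 with h2 | h2
  · exact Or.inl (h2.smul g)
  · exact Or.inr (h2.smul g)

theorem OGr_edge {G α : Type} [Group G] [MulAction G α] {x y : α} (hxy : x ≠ y) :
    (OGr G x y).Adj x y := ⟨hxy, Or.inl ⟨1, one_smul _ _, one_smul _ _⟩⟩

theorem ORel_orbit {G α : Type} [Group G] [MulAction G α] (x y : α) :
    {v | ORel G x y x v} = orbit (stabilizer G x) y := by
  ext v
  simp only [Set.mem_setOf_eq, ORel, mem_orbit_iff]
  constructor
  · rintro ⟨g, hg1, hg2⟩
    exact ⟨⟨g, mem_stabilizer_iff.2 hg1⟩, hg2⟩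
  · rintro ⟨⟨g, hg⟩, hg2⟩
    exact ⟨g, mem_stabilizer_iff.1 hg, hg2⟩

theorem ORel_image_right {G α : Type} [Group G] [MulAction G α] (x y u : α) (g : G) :
    {v | ORel G x y (g • u) v} = (fun w => g • w) '' {v | ORel G x y u v} := by
  ext v
  simp only [Set.mem_setOf_eq, Set.mem_image]
  constructor
  · intro h
    refine ⟨g⁻¹ • v, ?_, smul_inv_smul _ _⟩
    have := h.smul g⁻¹
    rwa [inv_smul_smul] at this
  · rintro ⟨w, hw, rfl⟩
    exact hw.smul g

theorem ORel_image_left {G α : Type} [Group G] [MulAction G α] (x y v : α) (g : G) :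
    {u | ORel G x y u (g • v)} = (fun w => g • w) '' {u | ORel G x y u v} := by
  ext u
  simp only [Set.mem_setOf_eq, Set.mem_image]
  constructor
  · intro h
    refine ⟨g⁻¹ • u, ?_, smul_inv_smul _ _⟩
    have := h.smul g⁻¹
    rwa [inv_smul_smul] at this
  · rintro ⟨w, hw, rfl⟩
    exact hw.smul g

/-- the number of out-neighbours does not depend on the vertex -/
theorem ORel_card_right {G α : Type} [Group G] [MulAction G α] [IsPretransitive G α]
    (x y u : α) : {v | ORel G x y u v}.ncard = (orbit (stabilizer G x) y).ncard := by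
  obtain ⟨g, hg⟩ := MulAction.exists_smul_eq G x u
  rw [← hg, ORel_image_right, Set.ncard_image_of_injective _ (MulAction.injective g), ORel_orbit]

theorem ORel_card_left {G α : Type} [Group G] [MulAction G α] [IsPretransitive G α]
    (x y u v : α) : {w | ORel G x y w u}.ncard = {w | ORel G x y w v}.ncard := by
  obtain ⟨g, hg⟩ := MulAction.exists_smul_eq G v u
  rw [← hg, ORel_image_left, Set.ncard_image_of_injective _ (MulAction.injective g)]

/-- the numbers of out-neighbours and of in-neighbours are equal -/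
theorem ORel_card_eq {G α : Type} [Group G] [Finite α] [MulAction G α] [IsPretransitive G α]
    (x y u : α) : {w | ORel G x y w u}.ncard = (orbit (stabilizer G x) y).ncard := by
  classical
  letI : Fintype α := Fintype.ofFinite α
  have h1 : ∀ (P : α → Prop), {w | P w}.ncard = (Finset.univ.filter P).card := by
    intro P
    rw [Set.ncard_eq_toFinset_card']
    congr 1
    ext w
    simp
  have h2 : ∑ a : α, (Finset.univ.filter (fun b => ORel G x y a b)).card =
      ∑ b : α, (Finset.univ.filter (fun a => ORel G x y a b)).card := by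
    simp_rw [Finset.card_filter]
    exact Finset.sum_comm
  have h3 : ∀ a : α, (Finset.univ.filter (fun b => ORel G x y a b)).card =
      (orbit (stabilizer G x) y).ncard := by
    intro a
    rw [← h1, ORel_card_right]
  have h4 : ∀ b : α, (Finset.univ.filter (fun a => ORel G x y a b)).card =
      {w | ORel G x y w u}.ncard := by
    intro b
    rw [← h1, ORel_card_left x y b u]
  rw [Finset.sum_congr rfl (fun a _ => h3 a), Finset.sum_congr rfl (fun b _ => h4 b),
    Finset.sum_const, Finset.sum_const, smul_eq_mul, smul_eq_mul] at h2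
  have hn : 0 < (Finset.univ : Finset α).card := Finset.card_pos.2 ⟨x, Finset.mem_univ _⟩
  exact (Nat.eq_of_mul_eq_mul_left hn h2).symm

/-- the sets `df` of the edges -/
theorem OGr_df (UDM : T_UDM) {G α : Type} [Group G] [Finite α] [MulAction G α] {x y u v : α}
    (h : (OGr G x y).Adj u v) : (df G u v).ncard = (df G x y).ncard := by
  obtain ⟨-, hs, hi, -⟩ := UDM G α
  rcases h.2 with ⟨g, hg1, hg2⟩ | ⟨g, hg1, hg2⟩
  · rw [← hg1, ← hg2, hi]
  · rw [hs u v, ← hg1, ← hg2, hi]

end Pool.Agent.H56.FN
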