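import Pool.Agent.H6.FN.TargetsG

/-!
# MP_7500ea_al, board fcn_modules, row UD2
-/

namespace Pool.Agent.H56.FN

open FI MulAction

theorem pf_UD2 : T_UD2 := by
  classical
  intro G α _ _ _ _ m hm
  letI : Fintype α := Fintype.ofFinite α
  by_contra hcon
  push Not at hcon
  have hn : 0 < Fintype.card α := Fintype.card_pos
  have hc : Nat.card α = Fintype.card α := Nat.card_eq_fintype_card
  -- the complement of df
  have h1 : ∀ x y : α, m + 1 ≤ (Finset.univ.filter (fun z => z ∉ df G x y)).card := by
    intro x y
    have h2 := hcon x y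
    have h3 : (df G x y).ncard = (Finset.univ.filter (fun z => z ∈ df G x y)).card := by
      rw [Set.ncard_eq_toFinset_card']
      congr 1
      ext z
      simp
    have h4 := Finset.card_filter_add_card_filter_not (s := (Finset.univ : Finset α))
      (fun z => z ∈ df G x y)
    rw [Finset.card_univ] at h4
    omega
  have h2 : ∀ x z : α, (Finset.univ.filter (fun y => z ∉ df G x y)).card ≤ m := by
    intro x z
    have h3 : (Finset.univ.filter (fun y => z ∉ df G x y)).card =
        (orbit (stabilizer G z) x).ncard := by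
      rw [Set.ncard_eq_toFinset_card']
      congr 1
      ext y
      simp only [df, Finset.mem_filter, Finset.mem_univ, true_and, Set.mem_toFinset,
        Set.mem_setOf_eq, mem_orbit_iff]
      push Not
      constructor
      · rintro ⟨g, hg1, hg2⟩
        exact ⟨⟨g, mem_stabilizer_iff.2 hg2⟩, hg1⟩
      · rintro ⟨⟨g, hg⟩, hg1⟩
        exact ⟨g, hg1, mem_stabilizer_iff.1 hg⟩
    rw [h3]
    exact hm z x
  have h5 : ∀ x : α, Fintype.card α * (m + 1) ≤ Fintype.card α * m := by
    intro x
    calc Fintype.card α * (m + 1) = ∑ y : α, (m + 1) := by simp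
      _ ≤ ∑ y : α, (Finset.univ.filter (fun z => z ∉ df G x y)).card :=
          Finset.sum_le_sum (fun y _ => h1 x y)
      _ = ∑ y : α, ∑ z : α, (if z ∉ df G x y then 1 else 0) := by
          simp_rw [Finset.card_filter]
      _ = ∑ z : α, ∑ y : α, (if z ∉ df G x y then 1 else 0) := Finset.sum_comm
      _ = ∑ z : α, (Finset.univ.filter (fun y => z ∉ df G x y)).card := by
          simp_rw [Finset.card_filter]
      _ ≤ ∑ z : α, m := Finset.sum_le_sum (fun z _ => h2 x z)
      _ = Fintype.card α * m := by simp
  obtain ⟨x⟩ := ‹Nonempty α›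
  have h6 := h5 x
  have h7 : m + 1 ≤ m := Nat.le_of_mul_le_mul_left h6 hn
  omega

end Pool.Agent.H56.FN
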