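import Pool.Agent.H56.FN.OG

/-!
# MP_7500ea_al, board fcn_modules, row UD3
-/

namespace Pool.Agent.H56.FN

open FI MulAction

theorem pf_UD3 (CON : T_CON) (UDM : T_UDM) : T_UD3 := by
  classical
  intro G α _ _ _ hG x y hxy
  letI : Fintype α := Fintype.ofFinite α
  haveI : IsPretransitive G α := hG.toIsPretransitive
  obtain ⟨hcon, hdist⟩ := CON G α hG (OGr G x y) (OGr_inv x y) ⟨x, y, OGr_edge hxy⟩
  set a := (orbit (stabilizer G x) y).ncard with ha
  set D := (df G x y).ncard with hD
  -- the covering
  have hcov : ∀ z : α, z ≠ x → ∃ w, (OGr G x y).Adj x w ∧ z ∈ df G x w := by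
    intro z hz
    obtain ⟨p, hp⟩ := (hcon x z).exists_walk_length_eq_dist
    cases p with
    | nil => exact absurd rfl hz
    | @cons _ w _ h q =>
      refine ⟨w, h, ?_⟩
      intro g hg hgz
      have h1 : (OGr G x y).dist w z ≤ q.length := SimpleGraph.dist_le q
      have h2 := hdist g x z
      rw [hg, hgz] at h2
      rw [SimpleGraph.Walk.length_cons] at hp
      omega
  set N : Finset α := Finset.univ.filter (fun w => (OGr G x y).Adj x w) with hN
  have h1 : ∀ (P : α → Prop), {w | P w}.ncard = (Finset.univ.filter P).card := by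
    intro P
    rw [Set.ncard_eq_toFinset_card']
    congr 1
    ext w
    simp
  have hNc : N.card ≤ 2 * a := by
    have h2 : N ⊆ Finset.univ.filter (fun w => ORel G x y x w) ∪
        Finset.univ.filter (fun w => ORel G x y w x) := by
      intro w hw
      rw [hN, Finset.mem_filter] at hw
      rw [Finset.mem_union, Finset.mem_filter, Finset.mem_filter]
      rcases hw.2.2 with h | h
      · exact Or.inl ⟨Finset.mem_univ _, h⟩
      · exact Or.inr ⟨Finset.mem_univ _, h⟩
    have h3 := (Finset.card_le_card h2).trans (Finset.card_union_le _ _)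
    rw [← h1 (fun w => ORel G x y x w), ← h1 (fun w => ORel G x y w x), ORel_card_right,
      ORel_card_eq] at h3
    omega
  have hsub : (Finset.univ.erase x : Finset α) ⊆
      N.biUnion (fun w => Finset.univ.filter (fun z => z ∈ df G x w)) := by
    intro z hz
    obtain ⟨w, hw1, hw2⟩ := hcov z (Finset.ne_of_mem_erase hz)
    rw [Finset.mem_biUnion]
    exact ⟨w, by rw [hN, Finset.mem_filter]; exact ⟨Finset.mem_univ _, hw1⟩,
      by rw [Finset.mem_filter]; exact ⟨Finset.mem_univ _, hw2⟩⟩
  have h2 := (Finset.card_le_card hsub).trans Finset.card_biUnion_le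
  have h3 : ∀ w ∈ N, (Finset.univ.filter (fun z => z ∈ df G x w)).card = D := by
    intro w hw
    rw [hN, Finset.mem_filter] at hw
    rw [← h1, hD, ← OGr_df UDM hw.2]
    rfl
  rw [Finset.sum_congr rfl h3, Finset.sum_const, smul_eq_mul,
    Finset.card_erase_of_mem (Finset.mem_univ x), Finset.card_univ] at h2
  have h4 : N.card * D ≤ 2 * a * D := Nat.mul_le_mul_right _ hNc
  rw [Nat.card_eq_fintype_card]
  omega

end Pool.Agent.H56.FN
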