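import Pool.Agent.H56.FN.OG

/-!
# MP_7500ea_al, board fcn_modules, row UD4
-/

namespace Pool.Agent.H56.FN

open FI MulAction

theorem pf_UD4 (CON : T_CON) (UDM : T_UDM) (DIA : T_DIA) : T_UD4 := by
  classical
  intro G α _ _ _ hG x y hxy u v
  haveI : IsPretransitive G α := hG.toIsPretransitive
  obtain ⟨hcon, hdist⟩ := CON G α hG (OGr G x y) (OGr_inv x y) ⟨x, y, OGr_edge hxy⟩
  set a := (orbit (stabilizer G x) y).ncard with ha
  set D := (df G x y).ncard with hD
  have hdeg : ∀ w, a ≤ ((OGr G x y).neighborSet w).ncard := by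
    intro w
    rw [ha, ← ORel_card_right (G := G) x y w]
    apply Set.ncard_le_ncard _ (Set.toFinite _)
    intro z hz
    rw [SimpleGraph.mem_neighborSet]
    refine ⟨?_, Or.inl hz⟩
    obtain ⟨g, hg1, hg2⟩ := hz
    rintro rfl
    exact hxy (MulAction.injective g (hg1.trans hg2.symm))
  have hdia := DIA α (OGr G x y) hcon a hdeg u v
  obtain ⟨h0, -, -, htri⟩ := UDM G α
  have hwalk : ∀ (w z : α) (p : (OGr G x y).Walk w z), (df G w z).ncard ≤ p.length * D := by
    intro w z p
    induction p with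
    | nil => rw [h0]; simp
    | @cons a' b' c' h q ih =>
      have h1 := htri a' b' c'
      have h2 : (df G a' b').ncard = D := OGr_df UDM h
      rw [SimpleGraph.Walk.length_cons, add_mul, one_mul]
      omega
  obtain ⟨p, hp⟩ := (hcon u v).exists_walk_length_eq_dist
  have h1 := hwalk u v p
  rw [hp] at h1
  calc (df G u v).ncard * (a + 1) ≤ ((OGr G x y).dist u v * D) * (a + 1) :=
        Nat.mul_le_mul_right _ h1
    _ = ((OGr G x y).dist u v * (a + 1)) * D := by ring
    _ ≤ (3 * Nat.card α) * D := Nat.mul_le_mul_right _ hdia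

end Pool.Agent.H56.FN
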