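import Pool.Agent.H6.FN.TargetsG

/-!
# MP_7500ea_al, board fcn_modules, row UDM
-/

namespace Pool.Agent.H56.FN

open FI MulAction

theorem pf_UDM : T_UDM := by
  intro G α _ _ _
  have hsub : ∀ (h : G) (x y : α), (fun z => h • z) '' (df G x y) ⊆ df G (h • x) (h • y) := by
    intro h x y z hz
    obtain ⟨w, hw, rfl⟩ := hz
    intro g hg hgz
    apply hw (h⁻¹ * g * h)
    · rw [mul_smul, mul_smul, hg, inv_smul_smul]
    · show (h⁻¹ * g * h) • w = w
      have h1 : g • h • w = h • w := hgz
      rw [mul_smul, mul_smul, h1, inv_smul_smul]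
  have hle : ∀ (h : G) (x y : α), (df G x y).ncard ≤ (df G (h • x) (h • y)).ncard := by
    intro h x y
    rw [← Set.ncard_image_of_injective (df G x y) (MulAction.injective h)]
    exact Set.ncard_le_ncard (hsub h x y) (Set.toFinite _)
  refine ⟨?_, ?_, ?_, ?_⟩
  · intro x
    ext z
    simp only [df, Set.mem_setOf_eq, Set.mem_empty_iff_false, iff_false]
    intro h
    exact h 1 (one_smul _ _) (one_smul _ _)
  · have key : ∀ x y : α, df G x y ⊆ df G y x := by
      intro x y z hz g hg hgz
      apply hz g⁻¹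
      · rw [← hg, inv_smul_smul]
      · rw [inv_smul_eq_iff, hgz]
    intro x y
    exact Set.Subset.antisymm (key x y) (key y x)
  · intro g x y
    apply le_antisymm
    · have := hle g⁻¹ (g • x) (g • y)
      rwa [inv_smul_smul, inv_smul_smul] at this
    · exact hle g x y
  · intro x y z
    have h1 : df G x z ⊆ df G x y ∪ df G y z := by
      intro w hw
      by_contra hcon
      rw [Set.mem_union, not_or] at hcon
      obtain ⟨h2, h3⟩ := hcon
      simp only [df, Set.mem_setOf_eq] at h2 h3
      push Not at h2 h3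
      obtain ⟨g, hg1, hg2⟩ := h2
      obtain ⟨h, hh1, hh2⟩ := h3
      apply hw (h * g)
      · rw [mul_smul, hg1, hh1]
      · rw [mul_smul, hg2, hh2]
    calc (df G x z).ncard ≤ (df G x y ∪ df G y z).ncard := Set.ncard_le_ncard h1 (Set.toFinite _)
      _ ≤ _ := Set.ncard_union_le _ _

end Pool.Agent.H56.FN
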